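import Pool.Agent.Y970.PX.Stm
import Pool.Agent.W505.PV.VF

/-! # PX-DIVP: a nonzero integer polynomial of bounded degree and polynomial size has few divisors -/

set_option autoImplicit false

namespace Pool.Agent.Y813.PX

open Finset Polynomial Pool.Agent.W89.VP Pool.Agent.Y970.PX

/-- There are `r + 1` points among `0, …, 2 r` at which `D` does not vanish. -/
theorem pts (r : ℕ) (D : ℤ[X]) (hD : D ≠ 0) (hr : D.natDegree ≤ r) :
    ∃ Z : Finset ℤ, (∀ z ∈ Z, 0 ≤ z ∧ z ≤ 2 * (r : ℤ)) ∧ Z.card = r + 1 ∧ ∀ z ∈ Z, D.eval z ≠ 0 := by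
  classical
  set S : Finset ℤ := (Finset.range (2 * r + 1)).image (fun n : ℕ => (n : ℤ)) with hS
  have hSc : S.card = 2 * r + 1 := by
    rw [hS, Finset.card_image_of_injective _ (fun a b h => by exact_mod_cast h), Finset.card_range]
  have h1 : (S.filter (fun z => D.eval z = 0)).card ≤ r := by
    calc (S.filter (fun z => D.eval z = 0)).card ≤ D.roots.toFinset.card := by
          apply Finset.card_le_card
          intro z hz
          rw [Finset.mem_filter] at hz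
          rw [Multiset.mem_toFinset, mem_roots hD]
          exact hz.2
      _ ≤ Multiset.card D.roots := Multiset.toFinset_card_le _
      _ ≤ D.natDegree := D.card_roots'
      _ ≤ r := hr
  have h2 : r + 1 ≤ (S.filter (fun z => ¬ D.eval z = 0)).card := by
    have := Finset.card_filter_add_card_filter_not (s := S) (fun z => D.eval z = 0)
    omega
  obtain ⟨Z, hZ, hZc⟩ := Finset.exists_subset_card_eq h2
  refine ⟨Z, ?_, hZc, ?_⟩
  · intro z hz
    have := hZ hz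
    rw [Finset.mem_filter, hS, Finset.mem_image] at this
    obtain ⟨⟨n, hn, rfl⟩, -⟩ := this
    rw [Finset.mem_range] at hn
    constructor
    · positivity
    · have : (n : ℤ) < ((2 * r + 1 : ℕ) : ℤ) := by exact_mod_cast hn
      push_cast at this
      linarith
  · intro z hz
    exact (Finset.mem_filter.1 (hZ hz)).2

/-- Size of the values. -/
theorem evalB (r K N : ℕ) (D : ℤ[X]) (hr : D.natDegree ≤ r)
    (hc : ∀ l, (D.coeff l).natAbs ≤ K * N ^ K) (z : ℤ) (h0 : 0 ≤ z) (h1 : z ≤ 2 * (r : ℤ)) :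
    (D.eval z).natAbs ≤ ((r + 1) * K * (2 * r + 1) ^ r) * N ^ K := by
  rw [Polynomial.eval_eq_sum_range' (Nat.lt_succ_of_le hr)]
  have hz : z.natAbs ≤ 2 * r := by omega
  calc (∑ i ∈ Finset.range (r + 1), D.coeff i * z ^ i).natAbs
      ≤ ∑ i ∈ Finset.range (r + 1), (D.coeff i * z ^ i).natAbs := by
        have := Finset.abs_sum_le_sum_abs (fun i => D.coeff i * z ^ i) (Finset.range (r + 1))
        zify
        exact this
    _ ≤ ∑ _i ∈ Finset.range (r + 1), (K * N ^ K) * (2 * r + 1) ^ r := by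
        apply Finset.sum_le_sum
        intro i hi
        rw [Finset.mem_range] at hi
        rw [Int.natAbs_mul, Int.natAbs_pow]
        apply Nat.mul_le_mul (hc i)
        calc z.natAbs ^ i ≤ (2 * r + 1) ^ i := Nat.pow_le_pow_left (by omega) i
          _ ≤ (2 * r + 1) ^ r := Nat.pow_le_pow_right (by omega) (by omega)
    _ = ((r + 1) * K * (2 * r + 1) ^ r) * N ^ K := by
        rw [Finset.sum_const, Finset.card_range, smul_eq_mul]
        ring

/-- The integer divisors of `m`. -/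
def dv (m : ℤ) : Finset ℤ :=
  m.natAbs.divisors.image (fun n : ℕ => (n : ℤ)) ∪ m.natAbs.divisors.image (fun n : ℕ => -(n : ℤ))

theorem dv_card (m : ℤ) : (dv m).card ≤ 2 * m.natAbs.divisors.card := by
  unfold dv
  calc _ ≤ (m.natAbs.divisors.image (fun n : ℕ => (n : ℤ))).card +
        (m.natAbs.divisors.image (fun n : ℕ => -(n : ℤ))).card := Finset.card_union_le _ _
    _ ≤ m.natAbs.divisors.card + m.natAbs.divisors.card :=
        Nat.add_le_add Finset.card_image_le Finset.card_image_le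
    _ = _ := by ring

theorem mem_dv (m a : ℤ) (hm : m ≠ 0) (h : a ∣ m) : a ∈ dv m := by
  unfold dv
  have h1 : a.natAbs ∈ m.natAbs.divisors := by
    rw [Nat.mem_divisors]
    exact ⟨Int.natAbs_dvd_natAbs.2 h, Int.natAbs_ne_zero.2 hm⟩
  rw [Finset.mem_union, Finset.mem_image, Finset.mem_image]
  rcases Int.natAbs_eq a with h2 | h2
  · left
    exact ⟨a.natAbs, h1, h2.symm⟩
  · right
    exact ⟨a.natAbs, h1, h2.symm⟩

/-- PX-DIVP -/
theorem main : DIVPStm := by
  classical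
  intro r K ε hε
  set ε' : ℝ := ε / (((K : ℝ) + 1) * ((r : ℝ) + 1)) with hε'
  have hε'0 : 0 < ε' := by positivity
  obtain ⟨C0, hC0, hdiv⟩ := Pool.Agent.W505.PV.VF.mainDIV ε' hε'0
  set B : ℕ := (r + 1) * K * (2 * r + 1) ^ r with hB
  refine ⟨(2 * (C0 * (B : ℝ) ^ ε')) ^ (r + 1) + 1, by positivity, ?_⟩
  intro N hN D hD hr hc
  obtain ⟨Z, hZ1, hZc, hZ2⟩ := pts r D hD hr
  have hdeg : ∀ H : ℤ[X], H ∣ D → H.natDegree ≤ r := fun H hH =>
    (Polynomial.natDegree_le_of_dvd hH hD).trans hr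
  set T : Finset (Z → ℤ) := Fintype.piFinset (fun z : Z => dv (D.eval (z : ℤ))) with hT
  have hmaps : ∀ H ∈ {H : ℤ[X] | H ∣ D}, (fun z : Z => H.eval (z : ℤ)) ∈ (T : Set (Z → ℤ)) := by
    intro H hH
    rw [Finset.mem_coe, hT, Fintype.mem_piFinset]
    intro z
    exact mem_dv _ _ (hZ2 z z.2) (Polynomial.eval_dvd hH)
  have hinj : Set.InjOn (fun (H : ℤ[X]) (z : Z) => H.eval (z : ℤ)) {H : ℤ[X] | H ∣ D} := by
    intro H1 hH1 H2 hH2 h12
    have hlt : ∀ H : ℤ[X], H ∣ D → H.degree < (Z.card : WithBot ℕ) := by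
      intro H hH
      rw [hZc]
      refine lt_of_le_of_lt Polynomial.degree_le_natDegree ?_
      exact_mod_cast Nat.lt_succ_of_le (hdeg H hH)
    refine Polynomial.eq_of_degrees_lt_of_eval_finset_eq Z (hlt H1 hH1) (hlt H2 hH2) ?_
    intro z hz
    exact congrFun h12 ⟨z, hz⟩
  have hfin : (T : Set (Z → ℤ)).Finite := T.finite_toSet
  refine ⟨Set.Finite.of_injOn hmaps hinj hfin, ?_⟩
  have hN1 : (1 : ℝ) ≤ (N : ℝ) := by exact_mod_cast hN
  have hcard : {H : ℤ[X] | H ∣ D}.ncard ≤ T.card := by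
    rw [← Set.ncard_coe_finset]
    exact Set.ncard_le_ncard_of_injOn _ hmaps hinj hfin
  have hTc : (T.card : ℝ) ≤ ∏ _z : Z, 2 * (C0 * ((B : ℝ) ^ ε' * (N : ℝ) ^ (K * ε'))) := by
    rw [hT, Fintype.card_piFinset, Nat.cast_prod]
    apply Finset.prod_le_prod
    · intro z _
      positivity
    · intro z _
      have hz0 : D.eval (z : ℤ) ≠ 0 := hZ2 z z.2
      have hzz := hZ1 z z.2
      have h1 : 1 ≤ (D.eval (z : ℤ)).natAbs := Nat.one_le_iff_ne_zero.2 (Int.natAbs_ne_zero.2 hz0)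
      have h2 : (D.eval (z : ℤ)).natAbs ≤ B * N ^ K := evalB r K N D hr hc z hzz.1 hzz.2
      have h3 : (((D.eval (z : ℤ)).natAbs : ℕ) : ℝ) ^ ε' ≤ (B : ℝ) ^ ε' * (N : ℝ) ^ (K * ε') := by
        calc (((D.eval (z : ℤ)).natAbs : ℕ) : ℝ) ^ ε' ≤ (((B * N ^ K : ℕ)) : ℝ) ^ ε' :=
              Real.rpow_le_rpow (by positivity) (by exact_mod_cast h2) hε'0.le
          _ = (B : ℝ) ^ ε' * (N : ℝ) ^ (K * ε') := by
              push_cast
              rw [Real.mul_rpow (by positivity) (by positivity), ← Real.rpow_natCast (N : ℝ) K,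
                ← Real.rpow_mul (by positivity)]
      calc (((dv (D.eval (z : ℤ))).card : ℕ) : ℝ)
          ≤ ((2 * (D.eval (z : ℤ)).natAbs.divisors.card : ℕ) : ℝ) := by exact_mod_cast dv_card _
        _ = 2 * ((D.eval (z : ℤ)).natAbs.divisors.card : ℝ) := by push_cast; ring
        _ ≤ 2 * (C0 * (((D.eval (z : ℤ)).natAbs : ℕ) : ℝ) ^ ε') := by
            have := hdiv _ h1
            linarith
        _ ≤ 2 * (C0 * ((B : ℝ) ^ ε' * (N : ℝ) ^ (K * ε'))) := by
            have := mul_le_mul_of_nonneg_left h3 hC0.le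
            linarith
  have hprod : (∏ _z : Z, 2 * (C0 * ((B : ℝ) ^ ε' * (N : ℝ) ^ (K * ε')))) =
      (2 * (C0 * (B : ℝ) ^ ε')) ^ (r + 1) * (N : ℝ) ^ ((K * ε') * ((r + 1 : ℕ) : ℝ)) := by
    rw [Finset.prod_const, Finset.card_univ, Fintype.card_coe, hZc,
      Real.rpow_mul (Nat.cast_nonneg N) (K * ε') ((r + 1 : ℕ) : ℝ), Real.rpow_natCast, ← mul_pow]
    congr 1
    ring
  have hexp : (K * ε') * ((r + 1 : ℕ) : ℝ) ≤ ε := by
    rw [hε']
    push_cast
    rw [show (K : ℝ) * (ε / (((K : ℝ) + 1) * ((r : ℝ) + 1))) * ((r : ℝ) + 1) =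
      ε * ((K : ℝ) / ((K : ℝ) + 1)) by field_simp]
    have : (K : ℝ) / ((K : ℝ) + 1) ≤ 1 := by
      rw [div_le_one (by positivity)]
      linarith
    nlinarith
  have hNe : (N : ℝ) ^ ((K * ε') * ((r + 1 : ℕ) : ℝ)) ≤ (N : ℝ) ^ ε :=
    Real.rpow_le_rpow_of_exponent_le hN1 hexp
  calc (({H : ℤ[X] | H ∣ D}.ncard : ℕ) : ℝ) ≤ (T.card : ℝ) := by exact_mod_cast hcard
    _ ≤ (2 * (C0 * (B : ℝ) ^ ε')) ^ (r + 1) * (N : ℝ) ^ ((K * ε') * ((r + 1 : ℕ) : ℝ)) := by
        rw [← hprod]; exact hTc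
    _ ≤ (2 * (C0 * (B : ℝ) ^ ε')) ^ (r + 1) * (N : ℝ) ^ ε :=
        mul_le_mul_of_nonneg_left hNe (by positivity)
    _ ≤ ((2 * (C0 * (B : ℝ) ^ ε')) ^ (r + 1) + 1) * (N : ℝ) ^ ε := by
        have : 0 ≤ (N : ℝ) ^ ε := by positivity
        nlinarith

end Pool.Agent.Y813.PX
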